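import Mathlib
import Pool.Agent.Helper43_Billiard.Defs
import Pool.Agent.Helper43_Billiard.Main

/-!
Existence of a strictly convex billiard table with smooth boundary and the symmetry of an ellipse
whose squared billiard map is locally conjugate, by a real-analytic chart, near the 2-periodic orbit
along the `y`-axis, to the rigid rotation through any prescribed angle `β` with `β / π` Diophantine.

Method: a Newton (KAM type) iteration on the pair (support function near the bounce point, angle
coordinate of the conjugacy) with quadratic gain in the order of the power series, control of all
small divisors and of an Abel type averaging operator; the limit converges, and the (analytic) germ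
obtained is completed to a smooth symmetric table.
-/

set_option autoImplicit false

namespace Pool.Agent.Results.MP_71b62d_an.LocalRotation

open Helper43.Billiard

/-- Diophantine numbers exist, and for every `β` with `β / π` Diophantine there is a strictly convex
domain `Ω` with smooth boundary and the symmetry of an ellipse whose billiard map `T` is such that
`T ∘ T` is, near the 2-periodic orbit along the `y`-axis, conjugate to the rotation through `β` by a
local homeomorphism that is real-analytic together with its inverse. -/
theorem result :
    (∃ β : ℝ, Diophantine (β / Real.pi)) ∧
    ∀ β : ℝ, Diophantine (β / Real.pi) →
      ∃ Ω : Set ℂ, IsSymmetricOval Ω ∧ ∃ T : Phase Ω → Phase Ω, IsBilliardMap Ω T ∧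
        LocallyConjugateToRotation Ω T β := by
  refine ⟨⟨√2 * Real.pi, ?_⟩, main_theorem⟩
  rw [mul_div_assoc, div_self Real.pi_ne_zero, mul_one]
  exact diophantine_sqrt_two

end Pool.Agent.Results.MP_71b62d_an.LocalRotation
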